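import Pool.Agent.W455.EM.Stm
import Pool.Agent.W840.FeigeMain

/-! # The two-point case of the Samuels type bound -/

set_option autoImplicit false

namespace Pool.Agent.W120.EM.INN

open Finset Pool.Agent.W455.EM Pool.Agent.W840.FeigeCore

theorem pos_le {T x : ℝ} (hx : 0 ≤ x) : pos T x ≤ T * ind T x := by
  unfold pos ind
  split_ifs with h
  · rw [max_eq_left (by linarith)]
    linarith
  · rw [max_eq_right (by linarith)]
    simp

theorem G_le {ι : Type*} [DecidableEq ι] {q a : ι → ℝ} (hq : ∀ i, 0 < q i ∧ q i < 1)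
    (ha : ∀ i, 0 < a i) (T : ℝ) (s : Finset ι) : G q a T s ≤ T * U q a T s := by
  unfold G U E
  rw [Finset.mul_sum]
  refine Finset.sum_le_sum fun S _ => ?_
  have h1 : 0 ≤ (∏ i ∈ S, q i) * ∏ i ∈ s \ S, (1 - q i) := by
    refine mul_nonneg (Finset.prod_nonneg fun i _ => (hq i).1.le)
      (Finset.prod_nonneg fun i _ => by linarith [(hq i).2])
  have h2 := pos_le (T := T) (Finset.sum_nonneg fun i (_ : i ∈ S) => (ha i).le)
  calc _ ≤ ((∏ i ∈ S, q i) * ∏ i ∈ s \ S, (1 - q i)) * (T * ind T (∑ i ∈ S, a i)) :=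
        mul_le_mul_of_nonneg_left h2 h1
    _ = _ := by ring

/-- the sharp bound with the exponent `M` -/
theorem U_ge {ι : Type*} [DecidableEq ι] {q a : ι → ℝ} (hq : ∀ i, 0 < q i ∧ q i < 1)
    (ha : ∀ i, 0 < a i) (hμ : ∀ i, q i * a i ≤ 1) {T : ℝ} (hT : 1 < T) (s : Finset ι)
    (hM : ∑ i ∈ s, q i * a i ≤ T - 1) :
    (1 - 1 / T) ^ (∑ i ∈ s, q i * a i) ≤ U q a T s := by
  have h := potential hq ha hμ hT s.card s rfl hM
  have hT0 : 0 < T := by linarith
  have hU := U_pos (a := a) hq hT0 s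
  have hU1 : U q a T s ≤ 1 := U_le_one hq T s
  have hG := G_ge (a := a) hq T s
  have hG' := G_le hq ha T s
  have hx1 : 1 ≤ G q a T s / U q a T s := by
    rw [le_div_iff₀ hU]; linarith
  have hx2 : G q a T s / U q a T s ≤ T := by
    rw [div_le_iff₀ hU]; exact hG'
  have hx0 : 0 < G q a T s / U q a T s := by linarith
  have hb0 : 0 ≤ 1 - 1 / (G q a T s / U q a T s) := by
    rw [sub_nonneg, div_le_one hx0]; exact hx1
  have hb1 : 1 - 1 / (G q a T s / U q a T s) ≤ 1 - 1 / T := by
    have := one_div_le_one_div_of_le hx0 hx2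
    linarith
  have hbT : 0 < 1 - 1 / T := by rw [sub_pos, div_lt_one hT0]; exact hT
  set M := ∑ i ∈ s, q i * a i with hMdef
  have h2 : (1 - 1 / (G q a T s / U q a T s)) ^ (T - 1 - M) ≤ (1 - 1 / T) ^ (T - 1 - M) :=
    Real.rpow_le_rpow hb0 hb1 (by linarith)
  have h3 : (1 - 1 / T) ^ (T - 1) ≤ U q a T s * (1 - 1 / T) ^ (T - 1 - M) :=
    h.trans (mul_le_mul_of_nonneg_left h2 hU.le)
  have h4 : (1 - 1 / T) ^ (T - 1) = (1 - 1 / T) ^ M * (1 - 1 / T) ^ (T - 1 - M) := by
    rw [← Real.rpow_add hbT]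
    congr 1
    ring
  rw [h4] at h3
  exact le_of_mul_le_mul_right h3 (Real.rpow_pos_of_pos hbT _)

/-- comparison of `(1 - 1/T')^M` with `(1 - 1/T)^j` -/
theorem cmp (hmon : S_MON) {j : ℕ} {T T' M : ℝ} (hj : 1 ≤ j) (hT : (j : ℝ) + 1 ≤ T) (hT' : 1 < T')
    (hTT : T' ≤ T) (hM : M ≤ j - (T - T')) : (1 - 1 / T) ^ j ≤ (1 - 1 / T') ^ M := by
  have hj' : (1 : ℝ) ≤ j := by exact_mod_cast hj
  have hT0 : 0 < T := by linarith
  have hT0' : 0 < T' := by linarith
  have hb : 0 < 1 - 1 / T := by rw [sub_pos, div_lt_one hT0]; linarith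
  have hb' : 0 < 1 - 1 / T' := by rw [sub_pos, div_lt_one hT0']; linarith
  have hb1' : 1 - 1 / T' ≤ 1 := by
    have : 0 < 1 / T' := by positivity
    linarith
  have h1 : (1 - 1 / T) ^ (T - 1) ≤ (1 - 1 / T') ^ (T' - 1) := by
    rcases hTT.eq_or_lt with h | h
    · rw [h]
    · exact (hmon T' T hT'.le h).le
  have hT1 : 0 < T - 1 := by linarith
  have h2 : M ≤ (T' - 1) * (j / (T - 1)) := by
    refine hM.trans ?_
    rw [← mul_div_assoc, le_div_iff₀ hT1]
    nlinarith
  calc (1 - 1 / T) ^ j = ((1 - 1 / T) ^ (T - 1)) ^ ((j : ℝ) / (T - 1)) := by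
        rw [← Real.rpow_mul hb.le, ← Real.rpow_natCast]
        congr 1
        field_simp
    _ ≤ ((1 - 1 / T') ^ (T' - 1)) ^ ((j : ℝ) / (T - 1)) :=
        Real.rpow_le_rpow (Real.rpow_nonneg hb.le _) h1 (by positivity)
    _ = (1 - 1 / T') ^ ((T' - 1) * (j / (T - 1))) := by rw [← Real.rpow_mul hb'.le]
    _ ≤ (1 - 1 / T') ^ M := Real.rpow_le_rpow_of_exponent_ge hb' hb1' h2

theorem main (hmon : S_MON) : S_INN := by
  intro j a b q μ T hμ hT ha hL
  classical
  set s : Finset (Fin j) := univ.filter fun i => 0 < q i with hs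
  have hin : ∀ i ∈ s, 0 < q i ∧ q i < 1 ∧ a i < μ ∧ μ < b i ∧
      (1 - q i) * a i + q i * b i = μ := by
    intro i hi
    have hi' : 0 < q i := (mem_filter.1 hi).2
    rcases hL i with h | h
    · rw [h.1] at hi'; exact absurd hi' (lt_irrefl _)
    · exact h
  have hout : ∀ i, i ∉ s → q i = 0 ∧ a i = μ := by
    intro i hi
    rcases hL i with h | h
    · exact h
    · exact absurd (mem_filter.2 ⟨mem_univ i, h.1⟩) hi
  set q' : Fin j → ℝ := fun i => if i ∈ s then q i else 1 / 2 with hq'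
  set b' : Fin j → ℝ := fun i => if i ∈ s then b i - a i else 1 with hb'
  have hq1 : ∀ i, 0 < q' i ∧ q' i < 1 := by
    intro i
    by_cases hi : i ∈ s
    · simp only [hq', if_pos hi]; exact ⟨(hin i hi).1, (hin i hi).2.1⟩
    · simp only [hq', if_neg hi]; norm_num
  have hb1 : ∀ i, 0 < b' i := by
    intro i
    by_cases hi : i ∈ s
    · simp only [hb', if_pos hi]; linarith [(hin i hi).2.2.1, (hin i hi).2.2.2.1]
    · simp only [hb', if_neg hi]; norm_num
  have hqb : ∀ i ∈ s, q' i * b' i = μ - a i := by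
    intro i hi
    simp only [hq', hb', if_pos hi]
    linarith [(hin i hi).2.2.2.2]
  have hqb1 : ∀ i, q' i * b' i ≤ 1 := by
    intro i
    by_cases hi : i ∈ s
    · rw [hqb i hi]; linarith [ha i]
    · simp only [hq', hb', if_neg hi]; norm_num
  set S0 := ∑ i, a i with hS0
  set T' := T - S0 with hT'
  have hM : ∑ i ∈ s, q' i * b' i = j * μ - S0 := by
    rw [Finset.sum_congr rfl hqb]
    have h1 : ∑ i ∈ s, (μ - a i) = ∑ i, (μ - a i) := by
      apply Finset.sum_subset (Finset.subset_univ s)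
      intro i _ hi
      rw [(hout i hi).2, sub_self]
    rw [h1, Finset.sum_sub_distrib]
    simp [hS0]
  -- the sum
  have hsum : ∑ A : Finset (Fin j), BW q A * (if ∑ i, ch a b A i < T then 1 else 0) =
      U q' b' T' s := by
    unfold U E
    have h1 : ∑ A ∈ s.powerset, BW q A * (if ∑ i, ch a b A i < T then (1 : ℝ) else 0) =
        ∑ A : Finset (Fin j), BW q A * (if ∑ i, ch a b A i < T then 1 else 0) := by
      apply Finset.sum_subset (Finset.subset_univ _)
      intro A _ hA
      rw [Finset.mem_powerset, Finset.not_subset] at hA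
      obtain ⟨i, hiA, his⟩ := hA
      unfold BW
      rw [Finset.prod_eq_zero hiA (hout i his).1, zero_mul, zero_mul]
    rw [← h1]
    refine Finset.sum_congr rfl fun A hA => ?_
    have hAs := Finset.mem_powerset.1 hA
    congr 1
    · unfold BW
      congr 1
      · refine Finset.prod_congr rfl fun i hi => ?_
        simp only [hq', if_pos (hAs hi)]
      · have h2 : ∏ i ∈ s \ A, (1 - q' i) = ∏ i ∈ s \ A, (1 - q i) := by
          refine Finset.prod_congr rfl fun i hi => ?_
          simp only [hq', if_pos (Finset.mem_sdiff.1 hi).1]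
        rw [h2]
        symm
        apply Finset.prod_subset
        · intro i hi
          exact Finset.mem_compl.2 (Finset.mem_sdiff.1 hi).2
        · intro i hi hi'
          have : i ∉ s := fun h => hi' (Finset.mem_sdiff.2 ⟨h, Finset.mem_compl.1 hi⟩)
          rw [(hout i this).1, sub_zero]
    · have h3 : ∑ i, ch a b A i = S0 + ∑ i ∈ A, b' i := by
        have h4 : ∀ i, ch a b A i = a i + if i ∈ A then b' i else 0 := by
          intro i
          unfold ch
          by_cases hi : i ∈ A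
          · rw [if_pos hi, if_pos hi]
            simp only [hb', if_pos (hAs hi)]
            ring
          · rw [if_neg hi, if_neg hi, add_zero]
        rw [Finset.sum_congr rfl fun i _ => h4 i, Finset.sum_add_distrib, ← Finset.sum_filter]
        congr 1
        apply Finset.sum_congr _ fun _ _ => rfl
        ext i
        simp
      unfold ind
      rw [h3]
      have h5 : (S0 + ∑ i ∈ A, b' i < T) ↔ (∑ i ∈ A, b' i < T') := by
        rw [hT']
        constructor <;> intro h <;> linarith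
      simp only [h5]
  rw [hsum]
  have hj0 : (0 : ℝ) ≤ j := Nat.cast_nonneg j
  have hT1 : 1 ≤ T := by linarith
  have hT0 : 0 < T := by linarith
  have hbT : 0 ≤ 1 - 1 / T := by rw [sub_nonneg, div_le_one hT0]; exact hT1
  have hbT1 : 1 - 1 / T ≤ 1 := by
    have : 0 < 1 / T := by positivity
    linarith
  have hjμ : (j : ℝ) * μ ≤ j := by nlinarith
  rcases s.eq_empty_or_nonempty with he | hne
  · have h1 : U q' b' T' s = 1 := by
      rw [he]
      unfold U
      rw [E_empty]
      unfold ind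
      rw [if_pos]
      rw [he, Finset.sum_empty] at hM
      rw [hT']
      linarith
    rw [h1]
    exact pow_le_one₀ hbT hbT1
  · obtain ⟨i0, hi0⟩ := hne
    have hj1 : 1 ≤ j := by
      have := i0.isLt
      omega
    have hMpos : 0 < ∑ i ∈ s, q' i * b' i := by
      apply Finset.sum_pos (fun i _ => mul_pos (hq1 i).1 (hb1 i)) ⟨i0, hi0⟩
    have hS0' : 0 ≤ S0 := Finset.sum_nonneg fun i _ => ha i
    have hM' : ∑ i ∈ s, q' i * b' i ≤ T' - 1 := by
      rw [hM, hT']
      linarith
    have hT'1 : 1 < T' := by linarith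
    refine le_trans ?_ (U_ge hq1 hb1 hqb1 hT'1 s hM')
    apply cmp hmon hj1 hT hT'1
    · rw [hT']; linarith
    · rw [hM, hT']; linarith

end Pool.Agent.W120.EM.INN
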