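import Pool.Agent.W455.EM.Stm

/-! # Monotonicity of `(1 - 1/x)^(x-1)` -/

set_option autoImplicit false

namespace Pool.Agent.W120.EM.MON

open Pool.Agent.W455.EM

theorem main : S_MON := by
  intro x y hx hxy
  have hy : 1 < y := by linarith
  have hy0 : 0 < y := by linarith
  have hb : 0 < 1 - 1 / y := by rw [sub_pos, div_lt_one hy0]; exact hy
  rcases hx.eq_or_lt with rfl | hx
  · rw [sub_self, Real.rpow_zero]
    apply Real.rpow_lt_one hb.le _ (by linarith)
    have : 0 < 1 / y := by positivity
    linarith
  · have hu : 0 < x - 1 := by linarith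
    have hv : 0 < y - 1 := by linarith
    have hx0 : 0 < x := by linarith
    have h1 : 1 + 1 / (x - 1) < (1 + 1 / (y - 1)) ^ ((y - 1) / (x - 1)) := by
      have := one_add_mul_self_lt_rpow_one_add (s := 1 / (y - 1)) (p := (y - 1) / (x - 1))
        (by have : 0 < 1 / (y - 1) := by positivity
            linarith) (by positivity) (by rw [lt_div_iff₀ hu]; linarith)
      have e : (y - 1) / (x - 1) * (1 / (y - 1)) = 1 / (x - 1) := by field_simp
      rwa [e] at this
    have h2 : (1 + 1 / (x - 1)) ^ (x - 1) < (1 + 1 / (y - 1)) ^ (y - 1) := by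
      have h3 := Real.rpow_lt_rpow (by positivity) h1 hu
      rw [← Real.rpow_mul (by positivity)] at h3
      have e : (y - 1) / (x - 1) * (x - 1) = y - 1 := by field_simp
      rwa [e] at h3
    have e1 : 1 - 1 / x = (1 + 1 / (x - 1))⁻¹ := by
      have : x - 1 ≠ 0 := hu.ne'
      field_simp
      ring
    have e2 : 1 - 1 / y = (1 + 1 / (y - 1))⁻¹ := by
      have : y - 1 ≠ 0 := hv.ne'
      field_simp
      ring
    rw [e1, e2, Real.inv_rpow (by positivity), Real.inv_rpow (by positivity)]
    exact inv_strictAnti₀ (Real.rpow_pos_of_pos (by positivity) _) h2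

end Pool.Agent.W120.EM.MON
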